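import Pool.Agent.H52.XR2.S1

/-!
# Project XR2: limits of planar bodies, tools for the rows CLS, SAC
-/

set_option autoImplicit false

open MeasureTheory Set Filter Topology Metric Asymptotics
open scoped Real ENNReal RealInnerProductSpace

namespace Pool.XR2

open Pool.Agent.H45.XR

namespace Lim22

lemma yc_Ie (ψ : ℝ) : yc ψ (Complex.I * e ψ) = 0 := by
  simp only [yc, Complex.mul_re, Complex.mul_im, Complex.I_re, Complex.I_im, e_re, e_im]
  ring

lemma tc_Ie (ψ : ℝ) : tc ψ (Complex.I * e ψ) = 1 := by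
  simp only [tc, Complex.mul_re, Complex.mul_im, Complex.I_re, Complex.I_im, e_re, e_im]
  linear_combination Real.sin_sq_add_cos_sq ψ

lemma ext' (ψ : ℝ) {z w : ℂ} (h1 : yc ψ z = yc ψ w) (h2 : tc ψ z = tc ψ w) : z = w := by
  rw [decomp ψ z, decomp ψ w, h1, h2]

lemma norm_arg (z : ℂ) : ((‖z‖ : ℝ) : ℂ) * e (Complex.arg z) = z := by
  rw [e]; exact Complex.norm_mul_exp_arg_mul_I z

lemma mem_iff {C : Set ℂ} (hC : Body C) (z : ℂ) : z ∈ C ↔ ‖z‖ ≤ rad C (Complex.arg z) := by
  rw [← mem_iff_le_rad hC _ (norm_nonneg z), norm_arg]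

lemma mem_int_iff {C : Set ℂ} (hC : Body C) (z : ℂ) :
    z ∈ interior C ↔ ‖z‖ < rad C (Complex.arg z) := by
  rw [← mem_interior_iff_lt_rad hC _ (norm_nonneg z), norm_arg]

lemma rad_ge {C : Set ℂ} (hC : Body C) : ∃ r : ℝ, 0 < r ∧ ∀ θ, r ≤ rad C θ := by
  obtain ⟨ε, hε, hb⟩ := Metric.isOpen_iff.1 isOpen_interior 0 hC.zero
  refine ⟨ε / 2, by positivity, fun θ => ?_⟩
  rw [← mem_iff_le_rad hC θ (by positivity)]
  apply interior_subset (hb _)
  rw [mem_ball, dist_zero_right, norm_mul, norm_e, Complex.norm_real, Real.norm_eq_abs,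
    abs_of_pos (by positivity)]
  linarith

lemma bd_of_rad {C : Set ℂ} (hC : Body C) {r R : ℝ} (h1 : ∀ θ, r ≤ rad C θ)
    (h2 : ∀ θ, rad C θ ≤ R) : Bd r R C := by
  refine ⟨hC, fun z hz => ?_, fun z hz => ?_⟩
  · rw [mem_ball, dist_zero_right] at hz
    rw [mem_iff hC]
    exact hz.le.trans (h1 _)
  · rw [mem_iff hC] at hz
    rw [mem_closedBall, dist_zero_right]
    exact hz.trans (h2 _)

/-- Uniform bounds. -/
lemma bd_ev {C : ℕ → Set ℂ} {D : Set ℂ} (hD : Body D) (hl : BLim C D) :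
    ∃ r : ℝ, 0 < r ∧ ∃ R : ℝ, 0 < R ∧ ∀ᶠ n in atTop, Body (C n) → Bd r R (C n) := by
  obtain ⟨r, hr, hr'⟩ := rad_ge hD
  obtain ⟨R, hR, hR'⟩ := rad_le hD
  refine ⟨r / 2, by positivity, R + 1, by positivity, ?_⟩
  have h1 := Metric.tendstoUniformly_iff.1 hl (min (r / 2) 1) (by positivity)
  filter_upwards [h1] with n hn hB
  refine bd_of_rad hB (fun θ => ?_) (fun θ => ?_)
  · have := hn θ
    rw [Real.dist_eq, abs_lt] at this
    have h2 := min_le_left (r / 2) (1 : ℝ)
    linarith [hr' θ, this.2]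
  · have := hn θ
    rw [Real.dist_eq, abs_lt] at this
    have h2 := min_le_right (r / 2) (1 : ℝ)
    linarith [hR' θ, this.1]

lemma null_line (ψ t : ℝ) : volume {z : ℂ | tc ψ z = t} = 0 := by
  have hm : MeasurableSet {z : ℂ | tc ψ z = t} :=
    (continuous_tc ψ).measurable (measurableSet_singleton t)
  rw [← (fr_mp ψ).measure_preimage hm.nullMeasurableSet]
  have : fr ψ ⁻¹' {z : ℂ | tc ψ z = t} = ({t} : Set ℝ) ×ˢ (univ : Set ℝ) := by
    ext q
    simp only [mem_preimage, mem_ofPred_eq, tc_fr, mem_prod, mem_singleton_iff, mem_univ, and_true]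
  rw [this, Measure.volume_eq_prod, Measure.prod_prod, Real.volume_singleton, zero_mul]

lemma null_front {D : Set ℂ} (hD : Body D) : volume {z : ℂ | ‖z‖ = rad D (Complex.arg z)} = 0 := by
  refine measure_mono_null ?_ (hD.conv.addHaar_frontier volume)
  intro z hz
  rw [frontier, hD.cpt.isClosed.closure_eq]
  exact ⟨(mem_iff hD z).2 hz.le, fun h => ((mem_int_iff hD z).1 h).ne hz⟩

lemma tendsto_tc {φ : ℕ → ℝ} {ψ : ℝ} (h : Tendsto φ atTop (𝓝 ψ)) (z : ℂ) :
    Tendsto (fun n => tc (φ n) z) atTop (𝓝 (tc ψ z)) := by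
  unfold tc
  exact (((Real.continuous_cos.tendsto _).comp h).mul_const _).sub
    (((Real.continuous_sin.tendsto _).comp h).mul_const _)

lemma tendsto_yc {φ : ℕ → ℝ} {ψ : ℝ} (h : Tendsto φ atTop (𝓝 ψ)) (z : ℂ) :
    Tendsto (fun n => yc (φ n) z) atTop (𝓝 (yc ψ z)) := by
  unfold yc
  exact (((Real.continuous_cos.tendsto _).comp h).mul_const _).add
    (((Real.continuous_sin.tendsto _).comp h).mul_const _)

/-- Volumes of the parts in half-planes converge. -/
lemma vol_tendsto {C : ℕ → Set ℂ} {D : Set ℂ} (hD : Body D) (hl : BLim C D)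
    (hc : ∀ n, IsCompact (C n)) (hB : ∀ᶠ n in atTop, Body (C n)) {φ : ℕ → ℝ} {ψ : ℝ}
    (hφ : Tendsto φ atTop (𝓝 ψ)) (t : ℝ) :
    Tendsto (fun n => (volume (C n ∩ {z | tc (φ n) z ≤ t})).toReal) atTop
      (𝓝 (volume (D ∩ {z | tc ψ z ≤ t})).toReal) := by
  obtain ⟨r, hr, R, hR, hbd⟩ := bd_ev hD hl
  have hfin : volume (D ∩ {z | tc ψ z ≤ t}) ≠ ∞ :=
    ((measure_mono inter_subset_left).trans_lt hD.cpt.measure_lt_top).ne
  refine (ENNReal.tendsto_toReal hfin).comp ?_
  refine tendsto_measure_of_ae_tendsto_indicator atTop (B := closedBall (0 : ℂ) R)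
    (hD.cpt.measurableSet.inter (measurableSet_le (continuous_tc ψ).measurable measurable_const))
    (fun n => (hc n).measurableSet.inter
      (measurableSet_le (continuous_tc (φ n)).measurable measurable_const))
    measurableSet_closedBall (isCompact_closedBall _ _).measure_lt_top.ne ?_ ?_
  · filter_upwards [hbd, hB] with n h1 h2
    exact inter_subset_left.trans (h1 h2).out
  · have h1 : ∀ᵐ z : ℂ, ‖z‖ ≠ rad D (Complex.arg z) := by
      rw [ae_iff]
      simpa using null_front hD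
    have h2 : ∀ᵐ z : ℂ, tc ψ z ≠ t := by
      rw [ae_iff]
      simpa using null_line ψ t
    filter_upwards [h1, h2] with z hz1 hz2
    have e1 : ∀ᶠ n in atTop, (z ∈ C n ↔ z ∈ D) := by
      have hrad : Tendsto (fun n => rad (C n) (Complex.arg z)) atTop
          (𝓝 (rad D (Complex.arg z))) := hl.tendsto_at _
      rcases lt_or_gt_of_ne hz1 with h | h
      · filter_upwards [hrad.eventually (lt_mem_nhds h), hB] with n h3 h4
        rw [mem_iff h4, mem_iff hD]
        exact ⟨fun _ => h.le, fun _ => h3.le⟩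
      · filter_upwards [hrad.eventually (gt_mem_nhds h), hB] with n h3 h4
        rw [mem_iff h4, mem_iff hD]
        exact ⟨fun h5 => absurd h3 (not_lt.2 h5), fun h5 => absurd h (not_lt.2 h5)⟩
    have e2 : ∀ᶠ n in atTop, (tc (φ n) z ≤ t ↔ tc ψ z ≤ t) := by
      have htc := tendsto_tc hφ z
      rcases lt_or_gt_of_ne hz2 with h | h
      · filter_upwards [htc.eventually (gt_mem_nhds h)] with n h3
        exact ⟨fun _ => h.le, fun _ => h3.le⟩
      · filter_upwards [htc.eventually (lt_mem_nhds h)] with n h3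
        exact ⟨fun h5 => absurd h3 (not_lt.2 h5), fun h5 => absurd h (not_lt.2 h5)⟩
    filter_upwards [e1, e2] with n h3 h4
    simp only [mem_inter_iff, mem_ofPred_eq, h3, h4]

/-- the slice of `C` at level `t`. -/
def sl (C : Set ℂ) (ψ t : ℝ) : Set ℝ := {s : ℝ | (t : ℂ) * (Complex.I * e ψ) + s * e ψ ∈ C}

lemma sl_bdd {C : Set ℂ} {R : ℝ} (hR : C ⊆ closedBall 0 R) (ψ t : ℝ) :
    sl C ψ t ⊆ Icc (-R) R := by
  intro s hs
  have h1 := hR hs
  rw [mem_closedBall, dist_zero_right] at h1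
  have h2 : ‖(t : ℂ) * (Complex.I * e ψ) + s * e ψ‖ ^ 2 = s ^ 2 + t ^ 2 := by
    rw [Complex.sq_norm, Complex.normSq_apply]
    simp only [Complex.add_re, Complex.add_im, Complex.mul_re, Complex.mul_im, Complex.I_re,
      Complex.I_im, e_re, e_im, Complex.ofReal_re, Complex.ofReal_im]
    linear_combination (s ^ 2 + t ^ 2) * Real.sin_sq_add_cos_sq ψ
  have h3 := norm_nonneg ((t : ℂ) * (Complex.I * e ψ) + s * e ψ)
  have h4 : |s| ≤ R := abs_le_of_sq_le_sq (by nlinarith [sq_nonneg t]) (h3.trans h1)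
  exact abs_le.1 h4

lemma sl_fin {C : Set ℂ} (hc : IsCompact C) (ψ t : ℝ) : volume (sl C ψ t) < ∞ := by
  obtain ⟨R, hR⟩ := hc.isBounded.subset_closedBall (0 : ℂ)
  exact (measure_mono (sl_bdd hR ψ t)).trans_lt measure_Icc_lt_top

lemma xr_eq (C : Set ℂ) (ψ t : ℝ) : xr C ψ t = (volume (sl C ψ t)).toReal := rfl

/-- upper semicontinuity of the X-ray. -/
lemma sl_usc {C : Set ℂ} (hc : IsCompact C) (ψ t : ℝ) {c : ℝ≥0∞} (h : volume (sl C ψ t) < c) :
    ∀ᶠ s in 𝓝 t, volume (sl C ψ s) < c := by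
  obtain ⟨U, hU, hUo, hUc⟩ := Set.exists_isOpen_lt_of_lt _ _ h
  have hcU : IsCompact (C ∩ {z | yc ψ z ∈ Uᶜ}) :=
    hc.inter_right (hUo.isClosed_compl.preimage (continuous_yc ψ))
  have hcl : IsClosed (tc ψ '' (C ∩ {z | yc ψ z ∈ Uᶜ})) :=
    (hcU.image (continuous_tc ψ)).isClosed
  have hco : ∀ s y : ℝ, tc ψ ((s : ℂ) * (Complex.I * e ψ) + y * e ψ) = s := by
    intro s y
    rw [tc_add, tc_mul, tc_mul, tc_Ie, tc_e_self]; ring
  have hyo : ∀ s y : ℝ, yc ψ ((s : ℂ) * (Complex.I * e ψ) + y * e ψ) = y := by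
    intro s y
    rw [yc_add, yc_mul, yc_mul, yc_Ie, yc_e_self]; ring
  have hnot : t ∉ tc ψ '' (C ∩ {z | yc ψ z ∈ Uᶜ}) := by
    rintro ⟨z, ⟨hz, hz'⟩, hzt⟩
    apply hz'
    apply hU
    show _ ∈ C
    rw [← hzt, add_comm, ← decomp]
    exact hz
  filter_upwards [hcl.isOpen_compl.mem_nhds hnot] with s hs
  refine lt_of_le_of_lt (measure_mono ?_) hUc
  intro y hy
  by_contra hyU
  exact hs ⟨_, ⟨hy, by rw [mem_ofPred_eq, hyo]; exact hyU⟩, hco s y⟩

/-- the X-ray does not drop fast towards the level of an interior point. -/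
lemma sl_ge {C : Set ℂ} (hC : Convex ℝ C) (h0 : (0 : ℂ) ∈ C) (ψ t : ℝ) {l : ℝ} (hl0 : 0 ≤ l)
    (hl1 : l ≤ 1) : ENNReal.ofReal l * volume (sl C ψ t) ≤ volume (sl C ψ (l * t)) := by
  have h1 : (fun x : ℝ => l * x) '' (sl C ψ t) ⊆ sl C ψ (l * t) := by
    rintro _ ⟨s, hs, rfl⟩
    have hs' : (t : ℂ) * (Complex.I * e ψ) + s * e ψ ∈ C := hs
    have h2 := hC hs' h0 hl0 (by linarith : (0 : ℝ) ≤ 1 - l) (by ring)
    show ((l * t : ℝ) : ℂ) * (Complex.I * e ψ) + ((l * s : ℝ) : ℂ) * e ψ ∈ C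
    convert h2 using 1
    rw [smul_zero, add_zero, Complex.real_smul]
    push_cast
    ring
  refine le_trans (le_of_eq ?_) (measure_mono h1)
  have h3 := Measure.addHaar_image_homothety (volume : Measure ℝ) (0 : ℝ) l (sl C ψ t)
  have h4 : (fun x : ℝ => l * x) = AffineMap.homothety (0 : ℝ) l := by
    funext x
    simp [AffineMap.homothety_apply]
  rw [h4, h3]
  simp [abs_of_nonneg hl0]

/-- Equal volumes at opposite levels: the X-ray is even. -/
lemma xr_even {C : Set ℂ} (hC : Body C) (ψ : ℝ)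
    (h : ∀ t : ℝ, volume (C ∩ {z | tc ψ z ≤ t}) = volume (C ∩ {z | -t ≤ tc ψ z})) (t : ℝ) :
    xr C ψ (-t) = xr C ψ t := by
  have hfin : IsFiniteMeasure (volume.restrict C) := ⟨by simpa using hC.cpt.measure_lt_top⟩
  set X : ℝ → ℝ≥0∞ := fun t => volume (sl C ψ t) with hX
  have hXm : Measurable X := by
    have h1 : MeasurableSet {p : ℝ × ℝ | (p.1 : ℂ) * (Complex.I * e ψ) + p.2 * e ψ ∈ C} :=
      hC.cpt.measurableSet.preimage (by fun_prop)
    exact measurable_measure_prodMk_left h1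
  have hng : Measurable fun z : ℂ => -tc ψ z := (continuous_tc ψ).measurable.neg
  -- the two push-forward measures agree
  have hμ : (volume.restrict C).map (tc ψ) = (volume.restrict C).map (fun z => -tc ψ z) := by
    apply Measure.ext_of_Iic
    intro a
    rw [Measure.map_apply (continuous_tc ψ).measurable measurableSet_Iic,
      Measure.map_apply hng measurableSet_Iic,
      Measure.restrict_apply ((continuous_tc ψ).measurable measurableSet_Iic),
      Measure.restrict_apply (hng measurableSet_Iic)]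
    have h1 := h a
    have e1 : tc ψ ⁻¹' Iic a ∩ C = C ∩ {z | tc ψ z ≤ a} := by
      ext z; simp [and_comm]
    have e2 : (fun z => -tc ψ z) ⁻¹' Iic a ∩ C = C ∩ {z | -a ≤ tc ψ z} := by
      ext z
      simp only [mem_inter_iff, mem_preimage, mem_Iic, mem_ofPred_eq, and_comm]
      rw [neg_le]
    rw [e1, e2, h1]
  have hvol : ∀ T : Set ℝ, MeasurableSet T → volume (C ∩ {z | tc ψ z ∈ T}) =
      volume (C ∩ {z | -tc ψ z ∈ T}) := by
    intro T hT
    have h1 := congrArg (fun m : Measure ℝ => m T) hμ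
    rw [Measure.map_apply (continuous_tc ψ).measurable hT,
      Measure.map_apply hng hT,
      Measure.restrict_apply ((continuous_tc ψ).measurable hT),
      Measure.restrict_apply (hng hT)] at h1
    rw [inter_comm, inter_comm C]
    exact h1
  have hae : X =ᵐ[volume] fun t => X (-t) := by
    apply ae_eq_of_forall_setLIntegral_eq_of_sigmaFinite hXm (hXm.comp measurable_neg)
    intro T hT _
    have h1 := vol_slice hC.cpt ψ hT
    have h2 := vol_slice hC.cpt ψ (T := Neg.neg ⁻¹' T) (measurable_neg hT)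
    rw [lintegral_indicator hT] at h1
    rw [lintegral_indicator (measurable_neg hT)] at h2
    have h3 := hvol T hT
    have h4 : ∫⁻ x in T, X (-x) = ∫⁻ x in Neg.neg ⁻¹' T, X x := by
      have h5 := (Measure.measurePreserving_neg (volume : Measure ℝ)).setLIntegral_comp_preimage
        (s := Neg.neg ⁻¹' T) (f := X) (measurable_neg hT) hXm
      rw [← h5]
      congr 2
      ext x
      simp
    show ∫⁻ x in T, X x = ∫⁻ x in T, X (-x)
    rw [h4]
    calc ∫⁻ x in T, X x = volume (C ∩ {z | tc ψ z ∈ T}) := h1.symm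
      _ = volume (C ∩ {z | -tc ψ z ∈ T}) := h3
      _ = ∫⁻ x in Neg.neg ⁻¹' T, X x := h2
  -- one inequality
  have key : ∀ t : ℝ, X t ≤ X (-t) := by
    intro t
    by_contra hlt
    push Not at hlt
    have ht0 : t ≠ 0 := by
      rintro rfl
      rw [neg_zero] at hlt
      exact lt_irrefl _ hlt
    obtain ⟨c, hc1, hc2⟩ := exists_between hlt
    have ev1 : ∀ᶠ l : ℝ in 𝓝 1, X (-(l * t)) < c := by
      have h1 : Tendsto (fun l : ℝ => -(l * t)) (𝓝 1) (𝓝 (-t)) := by
        have : Continuous fun l : ℝ => -(l * t) := by fun_prop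
        have h2 := this.tendsto 1
        rwa [one_mul] at h2
      exact h1.eventually (sl_usc hC.cpt ψ (-t) hc1)
    have ev2 : ∀ᶠ l : ℝ in 𝓝 1, c < ENNReal.ofReal l * X t := by
      have h1 : Tendsto (fun l : ℝ => ENNReal.ofReal l * X t) (𝓝 1) (𝓝 (ENNReal.ofReal 1 * X t)) := by
        refine ENNReal.Tendsto.mul_const ?_ (Or.inr (sl_fin hC.cpt ψ t).ne)
        exact (ENNReal.continuous_ofReal.tendsto 1)
      rw [ENNReal.ofReal_one, one_mul] at h1
      exact h1.eventually (lt_mem_nhds hc2)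
    obtain ⟨δ, hδ, hδ'⟩ := Metric.eventually_nhds_iff.1 (ev1.and (ev2.and
      (lt_mem_nhds (show (0 : ℝ) < 1 by norm_num))))
    -- an `l` with equality
    have hex : ∃ l : ℝ, 1 - δ < l ∧ l < 1 ∧ X (l * t) = X (-(l * t)) := by
      by_contra hno
      push Not at hno
      have hnull : volume {x : ℝ | ¬ X x = X (-x)} = 0 := ae_iff.1 hae
      have hsub : (fun l : ℝ => t * l) '' (Ioo (1 - δ) 1) ⊆ {x : ℝ | ¬ X x = X (-x)} := by
        rintro _ ⟨l, hl, rfl⟩
        have := hno l hl.1 hl.2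
        simp only [mem_ofPred_eq]
        rwa [mul_comm t l]
      have h0 := measure_mono_null hsub hnull
      have h3 := Measure.addHaar_image_homothety (volume : Measure ℝ) (0 : ℝ) t (Ioo (1 - δ) 1)
      have h4 : (fun x : ℝ => t * x) = AffineMap.homothety (0 : ℝ) t := by
        funext x
        simp [AffineMap.homothety_apply]
      rw [h4, h3, Real.volume_Ioo] at h0
      simp only [Module.finrank_self, pow_one, mul_eq_zero, ENNReal.ofReal_eq_zero] at h0
      rcases h0 with h0 | h0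
      · have := abs_pos.2 ht0
        linarith
      · linarith
    obtain ⟨l, hl1, hl2, hl3⟩ := hex
    have hd : dist l 1 < δ := by
      rw [Real.dist_eq, abs_lt]
      constructor <;> linarith
    obtain ⟨f1, f2, f3⟩ := hδ' hd
    have f4 := sl_ge hC.conv (interior_subset hC.zero) ψ t f3.le hl2.le
    have f5 : ENNReal.ofReal l * X t ≤ X (l * t) := f4
    rw [hl3] at f5
    exact absurd (f2.trans_le f5) (not_lt.2 f1.le)
  have : X (-t) = X t := le_antisymm (by simpa using key (-t)) (key t)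
  rw [xr_eq, xr_eq]
  exact congrArg ENNReal.toReal this

end Lim22

end Pool.XR2
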