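import Pool.Agent.H52.XR2.S2
import Pool.Agent.H22.XR2.Lim

/-!
# Project XR2, row CLS: types bounded below for close directions force a symmetry
-/

set_option autoImplicit false

open MeasureTheory Set Filter Topology Metric Asymptotics
open scoped Real ENNReal RealInnerProductSpace

namespace Pool.XR2

open Pool.Agent.H45.XR

namespace Cls

open Lim22

/-- affine functions on an interval. -/
lemma affine_on {a b : ℝ} (hab : a < b) {f : ℝ → ℝ}
    (h : ∀ x ∈ Ioo a b, ∀ y ∈ Ioo a b, ∀ s : ℝ, 0 ≤ s → s ≤ 1 →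
      f ((1 - s) * x + s * y) = (1 - s) * f x + s * f y) :
    ∃ c₀ c₁ : ℝ, ∀ x ∈ Ioo a b, f x = c₀ + c₁ * x := by
  set u := a + (b - a) / 3 with hu
  set v := a + 2 * (b - a) / 3 with hv
  have huv : u < v := by rw [hu, hv]; linarith
  have hum : u ∈ Ioo a b := ⟨by rw [hu]; linarith, by rw [hu]; linarith⟩
  have hvm : v ∈ Ioo a b := ⟨by rw [hv]; linarith, by rw [hv]; linarith⟩
  have hne : v - u ≠ 0 := by linarith
  -- the three-point relation
  have key : ∀ x ∈ Ioo a b, ∀ y ∈ Ioo a b, ∀ z : ℝ, x ≤ z → z ≤ y → x < y →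
      (y - x) * f z = (y - z) * f x + (z - x) * f y := by
    intro x hx y hy z hxz hzy hxy
    have h1 := h x hx y hy ((z - x) / (y - x)) (div_nonneg (by linarith) (by linarith))
      (by rw [div_le_one (by linarith)]; linarith)
    have hyx : y - x ≠ 0 := by linarith
    have h2 : (1 - (z - x) / (y - x)) * x + (z - x) / (y - x) * y = z := by
      field_simp; ring
    rw [h2] at h1
    rw [h1]
    field_simp
    ring
  refine ⟨f u - (f v - f u) / (v - u) * u, (f v - f u) / (v - u), fun x hx => ?_⟩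
  have hgoal : (v - u) * f x = (v - x) * f u + (x - u) * f v := by
    rcases le_total x u with hxu | hxu
    · have := key x hx v hvm u hxu huv.le (lt_of_le_of_lt hxu huv)
      linear_combination -this
    · rcases le_total x v with hxv | hxv
      · exact key u hum v hvm x hxu hxv huv
      · have := key u hum x hx v huv.le hxv (lt_of_lt_of_le huv hxv)
        linear_combination -this
  field_simp
  linear_combination hgoal

lemma xr_Cq (K : Set (ℂ × ℝ)) (ψ h t : ℝ) :
    xr (Cq K h) ψ t = xr (sec K h) ψ (tc ψ (cen (sec K h)) + t) := by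
  rw [xr_eq, xr_eq]
  congr 1
  set c := cen (sec K h) with hc
  have h1 : sl (Cq K h) ψ t = (fun s => s + yc ψ c) ⁻¹' sl (sec K h) ψ (tc ψ c + t) := by
    ext s
    simp only [sl, Cq, mem_preimage, mem_ofPred_eq, mem_tr]
    rw [← hc]
    have : (t : ℂ) * (Complex.I * e ψ) + s * e ψ + c =
        ((tc ψ c + t : ℝ) : ℂ) * (Complex.I * e ψ) + ((s + yc ψ c : ℝ) : ℂ) * e ψ := by
      nth_rewrite 1 [decomp ψ c]
      push_cast
      ring
    rw [this]
  rw [h1, measure_preimage_add_right]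

end Cls

open Lim22 Cls in
theorem t_cls (h1 : TWLStmt) (h2 : CSCStmt) (h3 : PMHStmt) (h4 : SGBStmt) : CLSStmt := by
  intro K g φ θ τ K' ψ c hK hg hφ hθ hθ0 hN0 hN1 hM hc hτ hrot
  obtain ⟨hSB, hS0, -⟩ := h4 K hK
  set cn : ℕ → ℝ → ℂ := fun n h => cen (sec (Sg (g n) K) h) with hcn
  -- the limits at a fixed height
  have hlim : ∀ h ∈ Hts K, (∀ᶠ n in atTop, h ∈ Hts (Sg (g n) K)) ∧
      BLim (fun n => Cq (Sg (g n) K) h) (Cq K h) ∧
      Tendsto (fun n => cn n h) atTop (𝓝 (cen (sec K h))) := by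
    intro h hh
    have := h2 K g 0 (fun _ => h) h hK hg tendsto_const_nhds (by rw [hS0]; exact hh)
    rw [hS0] at this
    exact this
  -- the second alternative holds eventually
  have ev : ∀ h ∈ Hts K, ∀ ε > 0, ∀ᶠ n in atTop, (sec (K' n) h).Nonempty ∧
      (∀ z ∈ sec (K' n) h, |θ n * yc (φ n) (z - cn n h) - 2 * tc (φ n) (z - cn n h)| ≤ ε) ∧
      ∀ t : ℝ, |(volume (Cq (Sg (g n) K) h ∩ {z | tc (φ n) z ≤ t})).toReal -
        (volume (Cq (Sg (g n) K) h ∩ {z | -t ≤ tc (φ n) z})).toReal| ≤ ε := by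
    intro h hh ε hε
    obtain ⟨l1, l2, l3⟩ := hlim h hh
    obtain ⟨r, hr, R, hR, hbd⟩ := bd_ev (body_Cq hK hh) l2
    obtain ⟨θ₀, hθ₀, hT⟩ := h1 r R (min ε (c / 2)) hr (by positivity)
    filter_upwards [l1, hbd, hθ.eventually (gt_mem_nhds hθ₀),
      hθ.eventually (gt_mem_nhds Real.pi_pos)] with n e1 e2 e3 e4
    obtain ⟨p1, p2⟩ := h3 (Sg (g n) K) (K' n) (φ n) (φ n + θ n) (hSB _) (hM n)
      (by linarith [hθ0 n]) (by linarith) (hN0 n) (hN1 n)
    obtain ⟨q1, q2, q3⟩ := p2 h e1
    have e5 := e2 (body_Cq (hSB _) e1)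
    have hcq : ∀ z ∈ sec (K' n) h, z - cn n h ∈ Cq (K' n) h := by
      intro z hz
      show z - cn n h + cen (sec (K' n) h) ∈ sec (K' n) h
      rw [q1]
      simpa [hcn] using hz
    have hne : (sec (K' n) h).Nonempty := ⟨_, q2.b'.zero_mem⟩
    rcases hT _ _ (φ n) (θ n) e5 q3 q2 e3 with h5 | h5
    · exfalso
      have h6 := hrot n h e1
      have h7 : rot (Cq (Sg (g n) K) h ∩ Cq (K' n) h) (φ n) (φ n + θ n) = τ n := h6
      have h8 := h5.2
      rw [h7] at h8
      have h9 := hτ n
      have h10 := min_le_right ε (c / 2)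
      linarith
    · refine ⟨hne, fun z hz => ?_, fun t => ?_⟩
      · exact (h5.2.1 _ (hcq z hz)).trans (min_le_left _ _)
      · exact (h5.2.2 t).trans (min_le_left _ _)
  -- part (i): the X-rays are even
  have hev : ∀ h ∈ Hts K, ∀ t : ℝ, xr (Cq K h) ψ (-t) = xr (Cq K h) ψ t := by
    intro h hh
    apply xr_even (body_Cq hK hh)
    intro t
    obtain ⟨l1, l2, l3⟩ := hlim h hh
    have hD := body_Cq hK hh
    have hcpt : ∀ n, IsCompact (Cq (Sg (g n) K) h) := fun n =>
      compact_tr (sec_compact (hSB _) h) _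
    have hBe : ∀ᶠ n in atTop, Body (Cq (Sg (g n) K) h) := by
      filter_upwards [l1] with n hn
      exact body_Cq (hSB _) hn
    have v1 := vol_tendsto hD l2 hcpt hBe hφ t
    have v2 := vol_tendsto hD l2 hcpt hBe (hφ.add_const π) t
    have hset : ∀ (ψ : ℝ) (C : Set ℂ), C ∩ {z | tc (ψ + π) z ≤ t} = C ∩ {z | -t ≤ tc ψ z} := by
      intro ψ C
      ext z
      have : tc (ψ + π) z = -tc ψ z := by
        simp only [tc, Real.cos_add_pi, Real.sin_add_pi]; ring
      simp only [mem_inter_iff, mem_ofPred_eq, this]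
      rw [neg_le]
    simp only [hset] at v2
    have v3 : Tendsto (fun n => |(volume (Cq (Sg (g n) K) h ∩ {z | tc (φ n) z ≤ t})).toReal -
        (volume (Cq (Sg (g n) K) h ∩ {z | -t ≤ tc (φ n) z})).toReal|) atTop (𝓝 0) := by
      rw [Metric.tendsto_nhds]
      intro ε hε
      filter_upwards [ev h hh (ε / 2) (by positivity)] with n hn
      rw [Real.dist_eq, sub_zero, abs_abs]
      linarith [hn.2.2 t]
    have v4 := tendsto_nhds_unique (v1.sub v2).abs v3
    rw [abs_eq_zero, sub_eq_zero] at v4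
    have f1 : volume (Cq K h ∩ {z | tc ψ z ≤ t}) ≠ ∞ :=
      ((measure_mono inter_subset_left).trans_lt hD.cpt.measure_lt_top).ne
    have f2 : volume (Cq K h ∩ {z | -t ≤ tc ψ z}) ≠ ∞ :=
      ((measure_mono inter_subset_left).trans_lt hD.cpt.measure_lt_top).ne
    exact (ENNReal.toReal_eq_toReal_iff' f1 f2).1 v4
  -- part (ii): the centroids
  obtain ⟨a, b, hab, hHts, -⟩ := Hts_eq hK
  have haff : ∀ x ∈ Ioo a b, ∀ y ∈ Ioo a b, ∀ s : ℝ, 0 ≤ s → s ≤ 1 →
      tc ψ (cen (sec K ((1 - s) * x + s * y))) =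
        (1 - s) * tc ψ (cen (sec K x)) + s * tc ψ (cen (sec K y)) := by
    intro x hx y hy s hs0 hs1
    have hxK : x ∈ Hts K := by rw [hHts]; exact hx
    have hyK : y ∈ Hts K := by rw [hHts]; exact hy
    have hzI : (1 - s) * x + s * y ∈ Ioo a b := by
      have := (convex_Ioo a b) hx hy (by linarith : (0 : ℝ) ≤ 1 - s) hs0 (by ring)
      simpa using this
    have hzK : (1 - s) * x + s * y ∈ Hts K := by rw [hHts]; exact hzI
    set z := (1 - s) * x + s * y with hz
    -- the limit of the linear forms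
    have hL : ∀ h ∈ Hts K, Tendsto (fun n => θ n * yc (φ n) (cn n h) - 2 * tc (φ n) (cn n h)) atTop
        (𝓝 (-2 * tc ψ (cen (sec K h)))) := by
      intro h hh
      obtain ⟨l1, l2, l3⟩ := hlim h hh
      have hre : Tendsto (fun n => (cn n h).re) atTop (𝓝 (cen (sec K h)).re) :=
        (Complex.continuous_re.tendsto _).comp l3
      have him : Tendsto (fun n => (cn n h).im) atTop (𝓝 (cen (sec K h)).im) :=
        (Complex.continuous_im.tendsto _).comp l3
      have hco := (Real.continuous_cos.tendsto _).comp hφ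
      have hsi := (Real.continuous_sin.tendsto _).comp hφ
      have t1 : Tendsto (fun n => tc (φ n) (cn n h)) atTop (𝓝 (tc ψ (cen (sec K h)))) := by
        unfold tc
        exact (hco.mul him).sub (hsi.mul hre)
      have t2 : Tendsto (fun n => yc (φ n) (cn n h)) atTop (𝓝 (yc ψ (cen (sec K h)))) := by
        unfold yc
        exact (hco.mul hre).add (hsi.mul him)
      have := (hθ.mul t2).sub (t1.const_mul 2)
      convert this using 2
      ring
    have hd : ∀ ε > 0, |2 * (tc ψ (cen (sec K z)) - ((1 - s) * tc ψ (cen (sec K x)) +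
        s * tc ψ (cen (sec K y))))| ≤ 2 * ε := by
      intro ε hε
      have hT := ((hL z hzK).sub (((hL x hxK).const_mul (1 - s)).add ((hL y hyK).const_mul s))).abs
      have hE : |-2 * tc ψ (cen (sec K z)) - ((1 - s) * (-2 * tc ψ (cen (sec K x))) +
          s * (-2 * tc ψ (cen (sec K y))))| = |2 * (tc ψ (cen (sec K z)) -
          ((1 - s) * tc ψ (cen (sec K x)) + s * tc ψ (cen (sec K y))))| := by
        rw [← abs_neg]
        congr 1
        ring
      rw [hE] at hT
      refine le_of_tendsto hT ?_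
      filter_upwards [ev x hxK ε hε, ev y hyK ε hε, ev z hzK ε hε] with n ex ey ez
      obtain ⟨zx, hzx⟩ := ex.1
      obtain ⟨zy, hzy⟩ := ey.1
      have hmem : ((1 - s) • zx + s • zy : ℂ) ∈ sec (K' n) z := by
        have h5 := (hM n).body.conv hzx hzy (by linarith : (0 : ℝ) ≤ 1 - s) hs0 (by ring)
        have h6 : (1 - s) • (zx, x) + s • (zy, y) = ((1 - s) • zx + s • zy, z) := by
          ext1
          · simp
          · simp [hz]
        rw [h6] at h5
        exact h5
      have r1 := abs_le.1 (ex.2.1 zx hzx)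
      have r2 := abs_le.1 (ey.2.1 zy hzy)
      have r3 := abs_le.1 (ez.2.1 _ hmem)
      rw [yc_sub, tc_sub] at r1 r2 r3
      rw [yc_add, yc_smul, yc_smul, tc_add, tc_smul, tc_smul] at r3
      set A := yc (φ n) zx
      set A' := tc (φ n) zx
      set B := yc (φ n) zy
      set B' := tc (φ n) zy
      have s0 : 0 ≤ 1 - s := by linarith
      have m1 := mul_le_mul_of_nonneg_left r1.1 s0
      have m2 := mul_le_mul_of_nonneg_left r1.2 s0
      have m3 := mul_le_mul_of_nonneg_left r2.1 hs0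
      have m4 := mul_le_mul_of_nonneg_left r2.2 hs0
      rw [abs_le]
      constructor
      · nlinarith [r3.1, r3.2]
      · nlinarith [r3.1, r3.2]
    have h0 : |2 * (tc ψ (cen (sec K z)) - ((1 - s) * tc ψ (cen (sec K x)) +
        s * tc ψ (cen (sec K y))))| = 0 := by
      refine le_antisymm ?_ (abs_nonneg _)
      refine le_of_forall_pos_le_add fun ε hε => ?_
      have := hd (ε / 2) (by positivity)
      linarith
    rw [abs_eq_zero] at h0
    linarith
  obtain ⟨c₀, c₁, hcc⟩ := affine_on (f := fun h => tc ψ (cen (sec K h))) hab haff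
  refine ⟨c₀, c₁, fun h hh t => ?_⟩
  have hhI : h ∈ Ioo a b := by rw [← hHts]; exact hh
  have h5 := hev h hh t
  rw [xr_Cq, xr_Cq, hcc h hhI] at h5
  rw [← h5]
  congr 1

end Pool.XR2
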