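import Pool.Agent.H52.XR2.S1

/-!
# Project XR2, row ELO: elongated bodies
-/

set_option autoImplicit false

open MeasureTheory Set Filter Topology Metric Asymptotics
open scoped Real ENNReal RealInnerProductSpace

namespace Pool.XR2

open Pool.Agent.H45.XR

namespace Elo

lemma yc_Ie (ψ : ℝ) : yc ψ (Complex.I * e ψ) = 0 := by
  simp only [yc, Complex.mul_re, Complex.mul_im, Complex.I_re, Complex.I_im, e_re, e_im]
  ring

lemma tc_Ie (ψ : ℝ) : tc ψ (Complex.I * e ψ) = 1 := by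
  simp only [tc, Complex.mul_re, Complex.mul_im, Complex.I_re, Complex.I_im, e_re, e_im]
  linear_combination Real.sin_sq_add_cos_sq ψ

lemma yc_Dg (ψ a b : ℝ) (z : ℂ) : yc ψ (Dg ψ a b z) = a * yc ψ z := by
  rw [Dg, yc_add, yc_mul, yc_mul, yc_Ie, yc_e_self]; ring

lemma tc_Dg (ψ a b : ℝ) (z : ℂ) : tc ψ (Dg ψ a b z) = b * tc ψ z := by
  rw [Dg, tc_add, tc_mul, tc_mul, tc_Ie, tc_e_self]; ring

lemma ext' (ψ : ℝ) {z w : ℂ} (h1 : yc ψ z = yc ψ w) (h2 : tc ψ z = tc ψ w) : z = w := by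
  rw [decomp ψ z, decomp ψ w, h1, h2]

lemma nsq (ψ : ℝ) (z : ℂ) : ‖z‖ ^ 2 = yc ψ z ^ 2 + tc ψ z ^ 2 := by
  rw [Complex.sq_norm, Complex.normSq_apply]
  simp only [yc, tc]
  linear_combination (-(z.re ^ 2 + z.im ^ 2)) * Real.sin_sq_add_cos_sq ψ

lemma abs_yc_le (ψ : ℝ) (z : ℂ) : |yc ψ z| ≤ ‖z‖ :=
  abs_le_of_sq_le_sq (by rw [nsq ψ]; nlinarith [sq_nonneg (tc ψ z)]) (norm_nonneg z)

/-- `Dg` as a linear map. -/
noncomputable def DgL (ψ a b : ℝ) : ℂ →L[ℝ] ℂ := LinearMap.toContinuousLinearMap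
  { toFun := Dg ψ a b
    map_add' := fun x y => ext' ψ (by rw [yc_add, yc_Dg, yc_Dg, yc_Dg, yc_add]; ring)
      (by rw [tc_add, tc_Dg, tc_Dg, tc_Dg, tc_add]; ring)
    map_smul' := fun c x => ext' ψ (by
        rw [RingHom.id_apply, yc_smul, yc_Dg, yc_Dg, yc_smul]; ring)
      (by rw [RingHom.id_apply, tc_smul, tc_Dg, tc_Dg, tc_smul]; ring) }

lemma DgL_apply (ψ a b : ℝ) (z : ℂ) : DgL ψ a b z = Dg ψ a b z := rfl

lemma Dg_inj (ψ : ℝ) {a b : ℝ} (ha : 0 < a) (hb : 0 < b) : Function.Injective (Dg ψ a b) := by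
  intro z w h
  refine ext' ψ ?_ ?_
  · have h1 := congrArg (yc ψ) h
    rw [yc_Dg, yc_Dg] at h1
    exact mul_left_cancel₀ ha.ne' h1
  · have h1 := congrArg (tc ψ) h
    rw [tc_Dg, tc_Dg] at h1
    exact mul_left_cancel₀ hb.ne' h1

lemma int_zero {C : Set ℂ} (hc : IsCompact C) (ψ : ℝ) {a b : ℝ} (ha : 0 < a) (hb : 0 < b)
    (h : ∫ z in C, z = 0) : ∫ z in Dg ψ a b '' C, z = 0 := by
  have h1 := integral_image_eq_integral_abs_det_fderiv_smul (volume : Measure ℂ)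
    (f := Dg ψ a b) (f' := fun _ => DgL ψ a b) (s := C) hc.measurableSet
    (fun x _ => (DgL ψ a b).hasFDerivAt.hasFDerivWithinAt) (Dg_inj ψ ha hb).injOn (fun z => z)
  rw [h1, integral_smul]
  have h2 : ∫ x in C, Dg ψ a b x = DgL ψ a b (∫ x in C, x) := by
    rw [← ContinuousLinearMap.integral_comp_comm]
    · rfl
    · exact continuousOn_id.integrableOn_compact hc
  rw [h2, h, map_zero, smul_zero]

/-- A convex compact set with a unit segment and width at least one has area at least `1/8`. -/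
lemma area {C : Set ℂ} (hC : Convex ℝ C) (hc : IsCompact C) (ψ : ℝ) {P Q T : ℂ} (hP : P ∈ C)
    (hQ : Q ∈ C) (hPQ : Q = P + e ψ) (hT : T ∈ C) (hw : 1 / 2 ≤ |tc ψ T - tc ψ P|) :
    ENNReal.ofReal (1 / 8) ≤ volume C := by
  -- the set of levels `tc P + l (tc T - tc P)`, `l ∈ [0, 1/2]`
  have h0 := vol_slice hc ψ (T := univ) MeasurableSet.univ
  have h0' : volume C = ∫⁻ t : ℝ, volume {s : ℝ | (t : ℂ) * (Complex.I * e ψ) + s * e ψ ∈ C} := by
    simpa using h0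
  set p := tc ψ P with hp
  set q := tc ψ T with hq
  have hne : q - p ≠ 0 := by
    intro h
    rw [h, abs_zero] at hw
    norm_num at hw
  set J : Set ℝ := uIcc p (p + (q - p) / 2) with hJ
  have hvJ : ENNReal.ofReal (1 / 4) ≤ volume J := by
    rw [hJ, Real.volume_interval]
    apply ENNReal.ofReal_le_ofReal
    rw [show p + (q - p) / 2 - p = (q - p) / 2 by ring, abs_div, abs_two]
    linarith
  have hX : ∀ t ∈ J, ENNReal.ofReal (1 / 2) ≤
      volume {s : ℝ | (t : ℂ) * (Complex.I * e ψ) + s * e ψ ∈ C} := by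
    intro t ht
    -- `t = p + l (q - p)`
    have hl : ∃ l : ℝ, 0 ≤ l ∧ l ≤ 1 / 2 ∧ t = p + l * (q - p) := by
      refine ⟨(t - p) / (q - p), ?_, ?_, by field_simp; ring⟩
      · rcases lt_or_gt_of_ne hne with h | h
        · have : t ≤ p := by
            rw [hJ, uIcc_of_ge (by linarith)] at ht
            exact ht.2
          exact div_nonneg_of_nonpos (by linarith) h.le
        · have : p ≤ t := by
            rw [hJ, uIcc_of_le (by linarith)] at ht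
            exact ht.1
          exact div_nonneg (by linarith) h.le
      · rcases lt_or_gt_of_ne hne with h | h
        · have : p + (q - p) / 2 ≤ t := by
            rw [hJ, uIcc_of_ge (by linarith)] at ht
            exact ht.1
          rw [div_le_iff_of_neg h]
          linarith
        · have : t ≤ p + (q - p) / 2 := by
            rw [hJ, uIcc_of_le (by linarith)] at ht
            exact ht.2
          rw [div_le_iff₀ h]
          linarith
    obtain ⟨l, hl0, hl1, rfl⟩ := hl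
    -- the points `(1 - l) (P + s e) + l T`
    have hsub : Icc ((1 - l) * yc ψ P + l * yc ψ T) ((1 - l) * yc ψ P + l * yc ψ T + (1 - l)) ⊆
        {s : ℝ | ((p + l * (q - p) : ℝ) : ℂ) * (Complex.I * e ψ) + s * e ψ ∈ C} := by
      intro s hs
      have hl2 : 0 < 1 - l := by linarith
      set m := (s - ((1 - l) * yc ψ P + l * yc ψ T)) / (1 - l) with hm
      have hm0 : 0 ≤ m := div_nonneg (by linarith [hs.1]) hl2.le
      have hm1 : m ≤ 1 := by
        rw [hm, div_le_one hl2]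
        linarith [hs.2]
      have hz : (1 - m) • P + m • Q ∈ C := hC hP hQ (by linarith) hm0 (by ring)
      have hz2 : (1 - l) • ((1 - m) • P + m • Q) + l • T ∈ C := hC hz hT hl2.le hl0 (by ring)
      have he : ((p + l * (q - p) : ℝ) : ℂ) * (Complex.I * e ψ) + s * e ψ =
          (1 - l) • ((1 - m) • P + m • Q) + l • T := by
        refine ext' ψ ?_ ?_
        · rw [yc_add, yc_mul, yc_mul, yc_Ie, yc_e_self, yc_add, yc_smul, yc_smul, yc_add, yc_smul,
            yc_smul, hPQ, yc_add, yc_e_self]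
          have : (1 - l) * m = s - ((1 - l) * yc ψ P + l * yc ψ T) := by
            rw [hm]; field_simp
          linear_combination -this
        · rw [tc_add, tc_mul, tc_mul, tc_Ie, tc_e_self, tc_add, tc_smul, tc_smul, tc_add, tc_smul,
            tc_smul, hPQ, tc_add, tc_e_self, ← hp, ← hq]
          ring
      show _ ∈ C
      rw [he]
      exact hz2
    refine le_trans ?_ (measure_mono hsub)
    rw [Real.volume_Icc]
    apply ENNReal.ofReal_le_ofReal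
    linarith
  calc ENNReal.ofReal (1 / 8) = ENNReal.ofReal (1 / 2) * ENNReal.ofReal (1 / 4) := by
        rw [← ENNReal.ofReal_mul (by norm_num)]; norm_num
    _ ≤ ENNReal.ofReal (1 / 2) * volume J := by gcongr
    _ = ∫⁻ t in J, ENNReal.ofReal (1 / 2) := by rw [setLIntegral_const]
    _ ≤ ∫⁻ t in J, volume {s : ℝ | (t : ℂ) * (Complex.I * e ψ) + s * e ψ ∈ C} :=
        setLIntegral_mono' measurableSet_uIcc hX
    _ ≤ ∫⁻ t : ℝ, volume {s : ℝ | (t : ℂ) * (Complex.I * e ψ) + s * e ψ ∈ C} :=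
        setLIntegral_le_lintegral _ _
    _ = volume C := h0'.symm

/-- The image of a direction. -/
lemma dir {ψ φ a b σ : ℝ} (ha : 0 < a) (hb : 0 < b) (hσ : σ = 1 ∨ σ = -1)
    (hs : 0 < σ * Real.sin (φ - ψ)) : ∃ s : ℝ, 0 < s ∧ Dg ψ a b (e φ) =
      s * e (ψ + σ * (π / 2) - Real.arctan (a / b * (Real.cos (φ - ψ) / Real.sin (φ - ψ)))) := by
  set c := a / b * (Real.cos (φ - ψ) / Real.sin (φ - ψ)) with hc
  have hcos := Real.cos_arctan_pos c
  have hσ2 : σ * σ = 1 := by rcases hσ with h | h <;> rw [h] <;> norm_num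
  have hsin : Real.sin (φ - ψ) ≠ 0 := by
    intro h
    rw [h, mul_zero] at hs
    exact lt_irrefl _ hs
  refine ⟨b * (σ * Real.sin (φ - ψ)) / Real.cos (Real.arctan c), by positivity, ?_⟩
  have h1 : Real.cos (ψ + σ * (π / 2) - Real.arctan c - ψ) = σ * Real.sin (Real.arctan c) := by
    rw [show ψ + σ * (π / 2) - Real.arctan c - ψ = σ * (π / 2) - Real.arctan c by ring]
    rcases hσ with h | h
    · rw [h, one_mul, one_mul, Real.cos_pi_div_two_sub]
    · rw [h, show (-1 : ℝ) * (π / 2) - Real.arctan c = -(π / 2 + Real.arctan c) by ring,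
        Real.cos_neg, add_comm, Real.cos_add_pi_div_two]
      ring
  have h2 : Real.sin (ψ + σ * (π / 2) - Real.arctan c - ψ) = σ * Real.cos (Real.arctan c) := by
    rw [show ψ + σ * (π / 2) - Real.arctan c - ψ = σ * (π / 2) - Real.arctan c by ring]
    rcases hσ with h | h
    · rw [h, one_mul, one_mul, Real.sin_pi_div_two_sub]
    · rw [h, show (-1 : ℝ) * (π / 2) - Real.arctan c = -(Real.arctan c + π / 2) by ring,
        Real.sin_neg, Real.sin_add_pi_div_two]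
      ring
  have h3 : Real.sin (Real.arctan c) = c * Real.cos (Real.arctan c) := by
    have := Real.tan_arctan c
    rw [Real.tan_eq_sin_div_cos, div_eq_iff hcos.ne'] at this
    exact this
  refine ext' ψ ?_ ?_
  · rw [yc_Dg, yc_e, yc_mul, yc_e, h1, h3, hc]
    field_simp
    linear_combination (-Real.cos (φ - ψ)) * hσ2
  · rw [tc_Dg, tc_e, tc_mul, tc_e, h2]
    field_simp
    linear_combination (-1 : ℝ) * hσ2

/-- The normalised bodies. -/
lemma key (h1 : SXLStmt) (h2 : LNAStmt) (h5 : WFLStmt) {r : ℝ}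
    (hINB : ∀ C : Set ℂ, Convex ℝ C → IsCompact C → C ⊆ closedBall 0 2 →
      ENNReal.ofReal (1 / 8) ≤ volume C → ∫ z in C, z = 0 → Bd r 2 C)
    {C C' : Set ℂ} {φ₀ φ₁ ψ d w : ℝ} (hPM : PM C C' φ₀ φ₁) (h0 : ∫ z in C, z = 0) (hd : 0 < d)
    (hdiam : ∀ p ∈ C, ∀ q ∈ C, ‖p - q‖ ≤ d)
    (hseg : ∃ p ∈ C, ∃ q ∈ C, q - p = (d : ℂ) * e ψ) (hw : 0 < w)
    (hwid : ∀ p ∈ C, ∀ q ∈ C, |tc ψ (p - q)| ≤ w)
    (hwit : ∃ p ∈ C, ∃ q ∈ C, tc ψ (p - q) = w)
    (hs : 0 < Real.sin (φ₀ - ψ) * Real.sin (φ₁ - ψ)) :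
    ∃ (D D' : Set ℂ) (φ : ℝ), Bd r 2 D ∧ ∫ z in D, z = 0 ∧
      PM D D' φ (φ + (Real.arctan (w / d * (Real.cos (φ₀ - ψ) / Real.sin (φ₀ - ψ))) -
        Real.arctan (w / d * (Real.cos (φ₁ - ψ) / Real.sin (φ₁ - ψ))))) ∧
      rot (D ∩ D') φ (φ + (Real.arctan (w / d * (Real.cos (φ₀ - ψ) / Real.sin (φ₀ - ψ))) -
        Real.arctan (w / d * (Real.cos (φ₁ - ψ) / Real.sin (φ₁ - ψ))))) = rot (C ∩ C') φ₀ φ₁ := by
  set a₀ := Real.arctan (w / d * (Real.cos (φ₀ - ψ) / Real.sin (φ₀ - ψ))) with ha₀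
  set a₁ := Real.arctan (w / d * (Real.cos (φ₁ - ψ) / Real.sin (φ₁ - ψ))) with ha₁
  have hda : 0 < 1 / d := by positivity
  have hwb : 0 < 1 / w := by positivity
  have hdw : 1 / d / (1 / w) = w / d := by field_simp
  obtain ⟨σ, hσ, hs0, hs1⟩ : ∃ σ : ℝ, (σ = 1 ∨ σ = -1) ∧ 0 < σ * Real.sin (φ₀ - ψ) ∧
      0 < σ * Real.sin (φ₁ - ψ) := by
    rcases pos_and_pos_or_neg_and_neg_of_mul_pos hs with ⟨h, h'⟩ | ⟨h, h'⟩
    · exact ⟨1, Or.inl rfl, by linarith, by linarith⟩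
    · exact ⟨-1, Or.inr rfl, by linarith, by linarith⟩
  obtain ⟨s₀, hs₀, hD0⟩ := dir (a := 1 / d) (b := 1 / w) hda hwb hσ hs0
  obtain ⟨s₁, hs₁, hD1⟩ := dir (a := 1 / d) (b := 1 / w) hda hwb hσ hs1
  rw [hdw] at hD0 hD1
  rw [← ha₀] at hD0
  rw [← ha₁] at hD1
  -- the order of the new directions
  have hlt : a₁ < a₀ := by
    apply Real.arctan_strictMono
    apply mul_lt_mul_of_pos_left _ (by positivity)
    have hne0 : Real.sin (φ₀ - ψ) ≠ 0 := left_ne_zero_of_mul hs.ne'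
    have hne1 : Real.sin (φ₁ - ψ) ≠ 0 := right_ne_zero_of_mul hs.ne'
    have hdiff : Real.cos (φ₀ - ψ) / Real.sin (φ₀ - ψ) - Real.cos (φ₁ - ψ) / Real.sin (φ₁ - ψ) =
        Real.sin (φ₁ - φ₀) / (Real.sin (φ₀ - ψ) * Real.sin (φ₁ - ψ)) := by
      rw [show φ₁ - φ₀ = (φ₁ - ψ) - (φ₀ - ψ) by ring, Real.sin_sub (φ₁ - ψ)]
      field_simp
    have hsp : 0 < Real.sin (φ₁ - φ₀) :=
      Real.sin_pos_of_pos_of_lt_pi (by linarith [hPM.h01]) (by linarith [hPM.h10])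
    have : 0 < Real.sin (φ₁ - φ₀) / (Real.sin (φ₀ - ψ) * Real.sin (φ₁ - ψ)) := div_pos hsp hs
    linarith
  have hlt2 : a₀ - a₁ < π := by
    have := Real.arctan_lt_pi_div_two (w / d * (Real.cos (φ₀ - ψ) / Real.sin (φ₀ - ψ)))
    have := Real.neg_pi_div_two_lt_arctan (w / d * (Real.cos (φ₁ - ψ) / Real.sin (φ₁ - ψ)))
    linarith
  have hb1 : ψ + σ * (π / 2) - a₁ = ψ + σ * (π / 2) - a₀ + (a₀ - a₁) := by ring
  rw [hb1] at hD1
  set φ := ψ + σ * (π / 2) - a₀ with hφ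
  obtain ⟨w1, w2, w3, -⟩ := h5 C C' φ₀ hPM.b hPM.b' hPM.x0 hPM.n0
  obtain ⟨-, w2', w3', -⟩ := h5 C C' φ₁ hPM.b hPM.b' hPM.x1 hPM.n1
  obtain ⟨k1, k2, k3, -⟩ := h2 C φ₀ φ₁ φ (φ + (a₀ - a₁)) ψ (1 / d) (1 / w) s₀ s₁ hPM.b hPM.n0
    hPM.n1 hPM.h01 hPM.h10 (by linarith) (by linarith) hda hwb hs₀ hs₁ hD0 hD1
  obtain ⟨l1, l2, l3, -⟩ := h2 C' φ₀ φ₁ φ (φ + (a₀ - a₁)) ψ (1 / d) (1 / w) s₀ s₁ hPM.b' w3
    w3' hPM.h01 hPM.h10 (by linarith) (by linarith) hda hwb hs₀ hs₁ hD0 hD1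
  obtain ⟨m1, m2, m3, m4⟩ := h2 (C ∩ C') φ₀ φ₁ φ (φ + (a₀ - a₁)) ψ (1 / d) (1 / w) s₀ s₁ w1 w2
    w2' hPM.h01 hPM.h10 (by linarith) (by linarith) hda hwb hs₀ hs₁ hD0 hD1
  have hint : ∫ z in Dg ψ (1 / d) (1 / w) '' C, z = 0 := int_zero hPM.b.cpt ψ hda hwb h0
  refine ⟨Dg ψ (1 / d) (1 / w) '' C, Dg ψ (1 / d) (1 / w) '' C', φ, ?_, hint, ?_, ?_⟩
  · apply hINB _ k1.conv k1.cpt _ _ hint
    · rintro _ ⟨z, hz, rfl⟩
      have hz0 : (0 : ℂ) ∈ C := interior_subset hPM.b.zero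
      have e1 := hdiam z hz 0 hz0
      have e2 := hwid z hz 0 hz0
      rw [sub_zero] at e1 e2
      have e3 : |yc ψ z| ≤ d := (abs_yc_le ψ z).trans e1
      have e4 : |yc ψ (Dg ψ (1 / d) (1 / w) z)| ≤ 1 := by
        rw [yc_Dg, abs_mul, abs_of_pos hda, one_div, inv_mul_le_iff₀ hd]
        linarith
      have e5 : |tc ψ (Dg ψ (1 / d) (1 / w) z)| ≤ 1 := by
        rw [tc_Dg, abs_mul, abs_of_pos hwb, one_div, inv_mul_le_iff₀ hw]
        linarith
      rw [mem_closedBall, dist_zero_right]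
      have e6 := nsq ψ (Dg ψ (1 / d) (1 / w) z)
      have e7 := (sq_le_one_iff_abs_le_one _).mpr e4
      have e8 := (sq_le_one_iff_abs_le_one _).mpr e5
      nlinarith [norm_nonneg (Dg ψ (1 / d) (1 / w) z)]
    · obtain ⟨p, hp, q, hq, hpq⟩ := hseg
      obtain ⟨p', hp', q', hq', hpq'⟩ := hwit
      have hQ : Dg ψ (1 / d) (1 / w) q = Dg ψ (1 / d) (1 / w) p + e ψ := by
        refine ext' ψ ?_ ?_
        · rw [yc_add, yc_Dg, yc_Dg, yc_e_self]
          have := congrArg (yc ψ) hpq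
          rw [yc_sub, yc_mul, yc_e_self] at this
          field_simp
          linarith
        · rw [tc_add, tc_Dg, tc_Dg, tc_e_self]
          have := congrArg (tc ψ) hpq
          rw [tc_sub, tc_mul, tc_e_self] at this
          rw [show tc ψ q = tc ψ p by linarith]
          ring
      have hdist : ∀ x y : ℂ, 1 / w * tc ψ x - 1 / w * tc ψ y = (tc ψ x - tc ψ y) / w := by
        intro x y; field_simp
      rw [tc_sub] at hpq'
      by_cases hcase : 1 / 2 ≤ |tc ψ (Dg ψ (1 / d) (1 / w) p') - tc ψ (Dg ψ (1 / d) (1 / w) p)|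
      · exact area k1.conv k1.cpt ψ (mem_image_of_mem _ hp) (mem_image_of_mem _ hq) hQ
          (mem_image_of_mem _ hp') hcase
      · refine area k1.conv k1.cpt ψ (mem_image_of_mem _ hp) (mem_image_of_mem _ hq) hQ
          (mem_image_of_mem _ hq') ?_
        push Not at hcase
        rw [abs_lt, tc_Dg, tc_Dg, hdist] at hcase
        rw [tc_Dg, tc_Dg, hdist]
        have e9 : (tc ψ q' - tc ψ p) / w = (tc ψ p' - tc ψ p) / w - 1 := by
          rw [show tc ψ q' = tc ψ p' - w by linarith]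
          field_simp
          ring
        rw [e9]
        exact le_abs.mpr (Or.inr (by linarith [hcase.2]))
  · exact ⟨k1, l1, by linarith, by linarith, h1 C C' φ₀ φ ψ _ _ s₀ hPM.x0 hda hwb hs₀ hD0,
      h1 C C' φ₁ _ ψ _ _ s₁ hPM.x1 hda hwb hs₁ hD1, k2, k3⟩
  · rw [← image_inter (Dg_inj ψ hda hwb)]
    exact m4

end Elo

theorem t_elo (h1 : SXLStmt) (h2 : LNAStmt) (h3 : TWLStmt) (h4 : INBStmt) (h5 : WFLStmt) :
    ELOStmt := by
  intro C C' φ₀ φ₁ ψ ψ' d w hPM h0 hψ hψ' hd hw hwd ε hε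
  obtain ⟨r, hr, hINB⟩ := h4 2 (1 / 8) (by norm_num)
  obtain ⟨θ₀, hθ₀, hTWL⟩ := h3 r 2 (ε / 2) hr (by linarith)
  -- the exact widths
  have hex : ∀ n, ∃ v : ℝ, 0 < v ∧ v ≤ w n ∧ (∀ p ∈ C n, ∀ q ∈ C n, |tc (ψ n) (p - q)| ≤ v) ∧
      ∃ p ∈ C n, ∃ q ∈ C n, tc (ψ n) (p - q) = v := by
    intro n
    have hB := (hPM n).b
    have hne : (C n ×ˢ C n).Nonempty := ⟨(0, 0), interior_subset hB.zero, interior_subset hB.zero⟩
    have hcont : Continuous fun x : ℂ × ℂ => |tc (ψ n) (x.1 - x.2)| :=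
      ((continuous_tc (ψ n)).comp (continuous_fst.sub continuous_snd)).abs
    obtain ⟨⟨p, q⟩, ⟨hp, hq⟩, hmax⟩ := (hB.cpt.prod hB.cpt).exists_isMaxOn hne hcont.continuousOn
    have hmax' : ∀ x ∈ C n, ∀ y ∈ C n, |tc (ψ n) (x - y)| ≤ |tc (ψ n) (p - q)| :=
      fun x hx y hy => hmax (a := (x, y)) ⟨hx, hy⟩
    refine ⟨|tc (ψ n) (p - q)|, ?_, hw n p hp q hq, hmax', ?_⟩
    · obtain ⟨δ, hδ, hball⟩ := Metric.isOpen_iff.1 isOpen_interior 0 hB.zero
      have hm : ((δ / 2 : ℝ) : ℂ) * (Complex.I * e (ψ n)) ∈ C n := by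
        apply interior_subset (hball _)
        rw [mem_ball, dist_zero_right, norm_mul, norm_mul, Complex.norm_I, norm_e,
          Complex.norm_real, Real.norm_eq_abs, abs_of_pos (by linarith)]
        linarith
      have := hmax' _ hm 0 (interior_subset hB.zero)
      rw [sub_zero, tc_mul, Elo.tc_Ie, mul_one, abs_of_pos (by linarith)] at this
      linarith
    · rcases le_total 0 (tc (ψ n) (p - q)) with h | h
      · exact ⟨p, hp, q, hq, (abs_of_nonneg h).symm⟩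
      · refine ⟨q, hq, p, hp, ?_⟩
        rw [abs_of_nonpos h, tc_sub, tc_sub]
        ring
  choose v hv0 hvw hv1 hv2 using hex
  have hvd : Tendsto (fun n => v n / d n) atTop (𝓝 0) := by
    refine squeeze_zero (fun n => (div_pos (hv0 n) (hd n).1).le) (fun n => ?_) hwd
    exact div_le_div_of_nonneg_right (hvw n) (hd n).1.le
  -- the signs
  have hsin : 0 < Real.sin (φ₀ - ψ') * Real.sin (φ₁ - ψ') := by
    by_contra hcon
    push Not at hcon
    have hle : φ₀ ≤ φ₁ := (hPM 0).h01.le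
    have hc : ContinuousOn (fun x => Real.sin (x - ψ')) (uIcc φ₀ φ₁) := by fun_prop
    have h0m : (0 : ℝ) ∈ uIcc (Real.sin (φ₀ - ψ')) (Real.sin (φ₁ - ψ')) := by
      rw [mem_uIcc]
      by_contra h
      push Not at h
      rcases lt_trichotomy (Real.sin (φ₀ - ψ')) 0 with h' | h' | h'
      · have := h.1 h'.le
        nlinarith
      · have := h.1 h'.le
        have := h.2
        rw [h'] at *
        grind
      · rcases lt_or_ge 0 (Real.sin (φ₁ - ψ')) with h'' | h''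
        · nlinarith
        · have := h.2 h''
          linarith
    obtain ⟨x, hx, hx0⟩ := intermediate_value_uIcc hc h0m
    rw [uIcc_of_le hle] at hx
    obtain ⟨k, hk⟩ := Real.sin_eq_zero_iff.1 hx0
    refine hψ' x hx (-k) ?_
    push_cast
    linarith
  have hne0 : Real.sin (φ₀ - ψ') ≠ 0 := left_ne_zero_of_mul hsin.ne'
  have hne1 : Real.sin (φ₁ - ψ') ≠ 0 := right_ne_zero_of_mul hsin.ne'
  have ts : ∀ φ : ℝ, Tendsto (fun n => Real.sin (φ - ψ n)) atTop (𝓝 (Real.sin (φ - ψ'))) :=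
    fun φ => (Real.continuous_sin.tendsto _).comp (tendsto_const_nhds.sub hψ)
  have tcs : ∀ φ : ℝ, Tendsto (fun n => Real.cos (φ - ψ n)) atTop (𝓝 (Real.cos (φ - ψ'))) :=
    fun φ => (Real.continuous_cos.tendsto _).comp (tendsto_const_nhds.sub hψ)
  have ev1 : ∀ᶠ n in atTop, 0 < Real.sin (φ₀ - ψ n) * Real.sin (φ₁ - ψ n) :=
    ((ts φ₀).mul (ts φ₁)).eventually (lt_mem_nhds hsin)
  have ta : ∀ φ : ℝ, Real.sin (φ - ψ') ≠ 0 → Tendsto (fun n => Real.arctan (v n / d n *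
      (Real.cos (φ - ψ n) / Real.sin (φ - ψ n)))) atTop (𝓝 0) := by
    intro φ hφ
    have := (Real.continuous_arctan.tendsto _).comp (hvd.mul ((tcs φ).div (ts φ) hφ))
    rw [zero_mul, Real.arctan_zero] at this
    exact this
  have ev2 : ∀ᶠ n in atTop, Real.arctan (v n / d n *
      (Real.cos (φ₀ - ψ n) / Real.sin (φ₀ - ψ n))) - Real.arctan (v n / d n *
      (Real.cos (φ₁ - ψ n) / Real.sin (φ₁ - ψ n))) < θ₀ := by
    have := (ta φ₀ hne0).sub (ta φ₁ hne1)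
    rw [sub_zero] at this
    exact this.eventually (gt_mem_nhds hθ₀)
  filter_upwards [ev1, ev2] with n e1 e2
  obtain ⟨D, D', φ, hD, hD0, hDP, hDr⟩ := Elo.key h1 h2 h5 hINB (hPM n) (h0 n) (hd n).1 (hd n).2.1
    (hd n).2.2 (hv0 n) (hv1 n) (hv2 n) e1
  rw [← hDr]
  rcases hTWL D D' φ _ hD hD0 hDP e2 with h | h
  · left
    linarith [h.2]
  · right
    linarith [h.1]

end Pool.XR2
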